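import Pool.Agent.Helper69.RG.St
import Pool.Agent.Helper84.LE.M_Jf
import Pool.Agent.Helper84.LE.M_ImpF
import Pool.Agent.Helper84.LE.M_KpInt

/-!
# Project RG: module R2 (lower bound for the bulk quadratic form)
-/

set_option autoImplicit false

open scoped BigOperators ENNReal
open MeasureTheory
open Pool.LE Pool.NL

namespace Pool.RG

namespace R2M

variable {d : ℕ}

/-- the nonnegative trigonometric polynomial of a finitely supported function -/
noncomputable def PP (F : Finset (Zd d)) (v : Zd d → ℝ) (k : Fin d → ℝ) : ℝ :=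
  (∑ x ∈ F, v x * Real.cos (∑ i, k i * x i)) ^ 2 + (∑ x ∈ F, v x * Real.sin (∑ i, k i * x i)) ^ 2

theorem PP_nonneg (F : Finset (Zd d)) (v : Zd d → ℝ) (k : Fin d → ℝ) : 0 ≤ PP F v k :=
  add_nonneg (sq_nonneg _) (sq_nonneg _)

theorem PP_eq (F : Finset (Zd d)) (v : Zd d → ℝ) (k : Fin d → ℝ) :
    PP F v k = ∑ x ∈ F, ∑ z ∈ F, v x * v z * Real.cos (∑ i, k i * ((x - z) i : ℝ)) := by
  unfold PP
  rw [pow_two, pow_two, Finset.sum_mul_sum, Finset.sum_mul_sum, ← Finset.sum_add_distrib]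
  refine Finset.sum_congr rfl fun x _ => ?_
  rw [← Finset.sum_add_distrib]
  refine Finset.sum_congr rfl fun z _ => ?_
  rw [KpIntaux.dot_sub, Real.cos_sub]
  ring

/-- the quadratic form of `f` -/
noncomputable def QF (F : Finset (Zd d)) (v f : Zd d → ℝ) : ℝ :=
  ∑ x ∈ F, ∑ z ∈ F, v x * v z * f (x - z)

theorem QF_inv (hInv : StInv) {f : Zd d → ℝ} (hs : Summable f) (he : EvenF f) (F : Finset (Zd d))
    (v : Zd d → ℝ) : Integrable (fun k => FT f k * PP F v k) (muT d) ∧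
      QF F v f = ∫ k, FT f k * PP F v k ∂(muT d) := by
  have e1 : (fun k => FT f k * PP F v k) = fun k => ∑ x ∈ F, ∑ z ∈ F, v x * v z *
      (FT f k * Real.cos (∑ i, k i * ((x - z) i : ℝ))) := by
    funext k
    rw [PP_eq, Finset.mul_sum]
    refine Finset.sum_congr rfl fun x _ => ?_
    rw [Finset.mul_sum]
    exact Finset.sum_congr rfl fun z _ => by ring
  have h1 : ∀ x z : Zd d, Integrable (fun k => v x * v z *
      (FT f k * Real.cos (∑ i, k i * ((x - z) i : ℝ)))) (muT d) := fun x z =>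
    (hInv d f hs he (x - z)).1.const_mul _
  rw [e1]
  refine ⟨integrable_finsetSum _ fun x _ => integrable_finsetSum _ fun z _ => h1 x z, ?_⟩
  rw [integral_finsetSum _ fun x _ => integrable_finsetSum _ fun z _ => h1 x z]
  unfold QF
  refine Finset.sum_congr rfl fun x _ => ?_
  rw [integral_finsetSum _ fun z _ => h1 x z]
  refine Finset.sum_congr rfl fun z _ => ?_
  rw [integral_const_mul, ← (hInv d f hs he (x - z)).2]

theorem cv_fs {F : Finset (Zd d)} {v : Zd d → ℝ} (hv : ∀ x, x ∉ F → v x = 0) (g : Zd d → ℝ) (x : Zd d) :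
    cv g v x = ∑ z ∈ F, v z * g (x - z) := by
  unfold cv
  rw [← (Equiv.subLeft x).tsum_eq (fun y => g y * v (x - y)), tsum_eq_sum (s := F)]
  · refine Finset.sum_congr rfl fun z _ => ?_
    simp only [Equiv.subLeft_apply, sub_sub_cancel]
    ring
  · intro z hz
    simp only [Equiv.subLeft_apply, sub_sub_cancel, hv z hz, mul_zero]

theorem summable_shift {g : Zd d → ℝ} (hg : Summable g) (z : Zd d) : Summable fun x : Zd d => g (x - z) :=
  ((Equiv.subRight z).summable_iff (f := g)).2 hg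

theorem cvJ (g : Zd d → ℝ) (x : Zd d) : cv (Jf d) g x = ∑ b ∈ nb x, g b := by
  rw [KpIntaux.sum_nb x g]
  have e1 : cv (Jf d) g x = ∑' y, (if y ∈ nb (0 : Zd d) then g (x - y) else 0) := by
    unfold cv
    refine tsum_congr fun y => ?_
    unfold Jf
    split_ifs
    · rw [one_mul]
    · rw [zero_mul]
  rw [e1, JfAux.tsum_nb (fun y => g (x - y))]
  refine Finset.sum_congr rfl fun i _ => ?_
  rw [sub_neg_eq_add]
  ring

theorem sum_nb_shift (g : Zd d → ℝ) (x z : Zd d) : ∑ b ∈ nb x, g (b - z) = ∑ b ∈ nb (x - z), g b := by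
  rw [KpIntaux.sum_nb x (fun b => g (b - z)), KpIntaux.sum_nb (x - z) g]
  refine Finset.sum_congr rfl fun i _ => ?_
  congr 2 <;> abel

theorem bdd_of_summable {G : Zd d → ℝ} (hG : Summable G) : ∃ C : ℝ, 0 ≤ C ∧ ∀ x, |G x| ≤ C := by
  have h := hG.abs
  exact ⟨∑' x : Zd d, |G x|, tsum_nonneg fun _ => abs_nonneg _, fun x => h.le_tsum x fun _ _ => abs_nonneg _⟩

theorem summable_mul_bdd {g G : Zd d → ℝ} (hg : Summable g) (hG : Summable G) (z z' : Zd d) :
    Summable fun x : Zd d => g (x - z) * G (x - z') := by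
  obtain ⟨C, hC0, hC⟩ := bdd_of_summable hG
  refine Summable.of_norm_bounded (g := fun x => |g (x - z)| * C) ((summable_shift hg z).abs.mul_right C) ?_
  intro x
  rw [Real.norm_eq_abs, abs_mul]
  exact mul_le_mul_of_nonneg_left (hC _) (abs_nonneg _)

theorem tsum_mul_shift {g G : Zd d → ℝ} (eG : EvenF G) (z z' : Zd d) :
    ∑' x : Zd d, g (x - z) * G (x - z') = cv g G (z' - z) := by
  unfold cv
  rw [← (Equiv.subRight z).tsum_eq (fun y => g y * G (z' - z - y))]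
  refine tsum_congr fun x => ?_
  simp only [Equiv.subRight_apply]
  rw [← eG (x - z')]
  congr 2
  abel

/-- first form -/
theorem Q1 {F : Finset (Zd d)} {v : Zd d → ℝ} (hv : ∀ x, x ∉ F → v x = 0) (g : Zd d → ℝ) :
    ∑' x : Zd d, v x * cv g v x = QF F v g := by
  rw [tsum_eq_sum (s := F)]
  · unfold QF
    refine Finset.sum_congr rfl fun x _ => ?_
    rw [cv_fs hv, Finset.mul_sum]
    exact Finset.sum_congr rfl fun z _ => by ring
  · intro x hx
    rw [hv x hx, zero_mul]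

/-- second form -/
theorem Q2 {F : Finset (Zd d)} {v : Zd d → ℝ} (hv : ∀ x, x ∉ F → v x = 0) {g : Zd d → ℝ}
    (hg : Summable g) (hG : Summable (cv (Jf d) g)) (eG : EvenF (cv (Jf d) g))
    (eH : EvenF (cv g (cv (Jf d) g))) :
    ∑' x : Zd d, ∑ y ∈ nb x, cv g v x * cv g v y = QF F v (cv g (cv (Jf d) g)) := by
  have e1 : ∀ x, ∑ y ∈ nb x, cv g v x * cv g v y =
      ∑ z ∈ F, ∑ z' ∈ F, v z * v z' * (g (x - z) * cv (Jf d) g (x - z')) := by
    intro x
    have e2 : ∑ y ∈ nb x, cv g v y = ∑ z' ∈ F, v z' * cv (Jf d) g (x - z') := by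
      have : ∀ y ∈ nb x, cv g v y = ∑ z ∈ F, v z * g (y - z) := fun y _ => cv_fs hv g y
      rw [Finset.sum_congr rfl this, Finset.sum_comm]
      refine Finset.sum_congr rfl fun z _ => ?_
      rw [← Finset.mul_sum, sum_nb_shift, cvJ]
    rw [← Finset.mul_sum, e2, cv_fs hv g x, Finset.sum_mul_sum]
    refine Finset.sum_congr rfl fun z _ => Finset.sum_congr rfl fun z' _ => by ring
  have h2 : ∀ z z' : Zd d, Summable fun x : Zd d => v z * v z' * (g (x - z) * cv (Jf d) g (x - z')) := fun z z' =>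
    (summable_mul_bdd hg hG z z').mul_left _
  rw [tsum_congr e1, Summable.tsum_finsetSum fun z _ => summable_sum fun z' _ => h2 z z']
  unfold QF
  refine Finset.sum_congr rfl fun z _ => ?_
  rw [Summable.tsum_finsetSum fun z' _ => h2 z z']
  refine Finset.sum_congr rfl fun z' _ => ?_
  rw [tsum_mul_left, tsum_mul_shift eG, ← eH (z - z'), neg_sub]

/-- the lattice Laplacian -/
noncomputable def lap (d : ℕ) (x : Zd d) : ℝ := ImpFM.un x + (-(1 / (2 * (d : ℝ)))) * Jf d x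

theorem sfs {F : Finset (Zd d)} {v : Zd d → ℝ} (hv : ∀ x, x ∉ F → v x = 0) {f : Zd d → ℝ}
    (hf : ∀ x, v x = 0 → f x = 0) : Summable f :=
  summable_of_ne_finset_zero (s := F) fun x hx => hf x (hv x hx)

theorem s_sq {F : Finset (Zd d)} {v : Zd d → ℝ} (hv : ∀ x, x ∉ F → v x = 0) : Summable fun x : Zd d => v x ^ 2 :=
  sfs hv fun x hx => by rw [hx]; ring

theorem s_sq' {F : Finset (Zd d)} {v : Zd d → ℝ} (hv : ∀ x, x ∉ F → v x = 0) (i : Fin d) :
    Summable fun x : Zd d => v (x + Pi.single i (1 : ℤ)) ^ 2 :=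
  ((Equiv.addRight (Pi.single i (1 : ℤ) : Zd d)).summable_iff (f := fun x : Zd d => v x ^ 2)).2 (s_sq hv)

theorem s_cr {F : Finset (Zd d)} {v : Zd d → ℝ} (hv : ∀ x, x ∉ F → v x = 0) (i : Fin d) :
    Summable fun x : Zd d => v x * v (x + Pi.single i (1 : ℤ)) :=
  sfs hv fun x hx => by rw [hx, zero_mul]

theorem s_df {F : Finset (Zd d)} {v : Zd d → ℝ} (hv : ∀ x, x ∉ F → v x = 0) (i : Fin d) :
    Summable fun x : Zd d => (v (x + Pi.single i (1 : ℤ)) - v x) ^ 2 := by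
  have := ((s_sq' hv i).add (s_sq hv)).sub ((s_cr hv i).mul_left 2)
  refine this.congr fun x => ?_
  ring

theorem En_one {F : Finset (Zd d)} {v : Zd d → ℝ} (hv : ∀ x, x ∉ F → v x = 0) :
    En v = ENNReal.ofReal (∑ i : Fin d, ∑' x : Zd d, (v (x + Pi.single i (1 : ℤ)) - v x) ^ 2) := by
  have h4 := s_df hv
  unfold En
  rw [← Summable.tsum_finsetSum fun i _ => h4 i,
    ENNReal.ofReal_tsum_of_nonneg (fun x => Finset.sum_nonneg fun i _ => sq_nonneg _)
      (summable_sum fun i _ => h4 i)]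
  refine tsum_congr fun x => ?_
  rw [ENNReal.ofReal_sum_of_nonneg fun i _ => sq_nonneg _]

theorem df_eq {F : Finset (Zd d)} {v : Zd d → ℝ} (hv : ∀ x, x ∉ F → v x = 0) (i : Fin d) :
    ∑' x : Zd d, (v (x + Pi.single i (1 : ℤ)) - v x) ^ 2 =
      2 * ∑' x : Zd d, v x ^ 2 - 2 * ∑' x : Zd d, v x * v (x + Pi.single i (1 : ℤ)) := by
  have a1 : ∑' x : Zd d, v (x + Pi.single i (1 : ℤ)) ^ 2 = ∑' x : Zd d, v x ^ 2 :=
    (Equiv.addRight (Pi.single i (1 : ℤ) : Zd d)).tsum_eq (fun x : Zd d => v x ^ 2)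
  have a2 : ∀ x, (v (x + Pi.single i (1 : ℤ)) - v x) ^ 2 =
      (v (x + Pi.single i (1 : ℤ)) ^ 2 + v x ^ 2) - 2 * (v x * v (x + Pi.single i (1 : ℤ))) := fun x => by ring
  rw [tsum_congr a2, Summable.tsum_sub ((s_sq' hv i).add (s_sq hv)) ((s_cr hv i).mul_left 2),
    Summable.tsum_add (s_sq' hv i) (s_sq hv), a1, tsum_mul_left]
  ring

theorem QF_lap1 {F : Finset (Zd d)} {v : Zd d → ℝ} (hv : ∀ x, x ∉ F → v x = 0) :
    QF F v (lap d) = ∑ x ∈ F, v x ^ 2 - (1 / (2 * (d : ℝ))) * ∑ x ∈ F, v x *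
      ∑ i : Fin d, (v (x - Pi.single i (1 : ℤ)) + v (x + Pi.single i (1 : ℤ))) := by
  unfold QF
  rw [Finset.mul_sum, ← Finset.sum_sub_distrib]
  refine Finset.sum_congr rfl fun x hx => ?_
  have c1 : ∑ z ∈ F, v z * ImpFM.un (x - z) = v x := by
    rw [Finset.sum_eq_single x]
    · rw [sub_self]
      simp [ImpFM.un]
    · intro z _ hz
      have : x - z ≠ 0 := sub_ne_zero.2 (Ne.symm hz)
      simp [ImpFM.un, this]
    · exact fun h => absurd hx h
  have c2 : ∑ z ∈ F, v z * Jf d (x - z) =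
      ∑ i : Fin d, (v (x - Pi.single i (1 : ℤ)) + v (x + Pi.single i (1 : ℤ))) := by
    rw [← cv_fs hv (Jf d) x, cvJ, KpIntaux.sum_nb x v]
    exact Finset.sum_congr rfl fun i _ => add_comm _ _
  rw [← c2]
  have c3 : ∀ z ∈ F, v x * v z * lap d (x - z) = v x * (v z * ImpFM.un (x - z)) -
      (1 / (2 * (d : ℝ))) * (v x * (v z * Jf d (x - z))) := fun z _ => by
    unfold lap
    ring
  rw [Finset.sum_congr rfl c3, Finset.sum_sub_distrib, ← Finset.mul_sum, c1, ← Finset.mul_sum, ← Finset.mul_sum]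
  ring

theorem cr_eq {F : Finset (Zd d)} {v : Zd d → ℝ} (hv : ∀ x, x ∉ F → v x = 0) (i : Fin d) :
    ∑ x ∈ F, v x * v (x - Pi.single i (1 : ℤ)) = ∑' x : Zd d, v x * v (x + Pi.single i (1 : ℤ)) := by
  have c4 : ∑ x ∈ F, v x * v (x - Pi.single i (1 : ℤ)) = ∑' x : Zd d, v x * v (x - Pi.single i (1 : ℤ)) :=
    (tsum_eq_sum fun x hx => by rw [hv x hx, zero_mul]).symm
  have c5 : ∑' x : Zd d, (v (x + Pi.single i (1 : ℤ)) * v (x + Pi.single i (1 : ℤ) - Pi.single i (1 : ℤ))) =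
      ∑' x : Zd d, v x * v (x - Pi.single i (1 : ℤ)) :=
    (Equiv.addRight (Pi.single i (1 : ℤ) : Zd d)).tsum_eq (fun x : Zd d => v x * v (x - (Pi.single i (1 : ℤ) : Zd d)))
  rw [c4, ← c5]
  refine tsum_congr fun x => ?_
  rw [add_sub_cancel_right]
  exact mul_comm _ _

theorem QF_lap2 {F : Finset (Zd d)} {v : Zd d → ℝ} (hv : ∀ x, x ∉ F → v x = 0) :
    ∑ x ∈ F, v x * ∑ i : Fin d, (v (x - Pi.single i (1 : ℤ)) + v (x + Pi.single i (1 : ℤ))) =
      ∑ i : Fin d, (2 * ∑' x : Zd d, v x * v (x + Pi.single i (1 : ℤ))) := by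
  have c1 : ∀ x ∈ F, v x * ∑ i : Fin d, (v (x - Pi.single i (1 : ℤ)) + v (x + Pi.single i (1 : ℤ))) =
      ∑ i : Fin d, (v x * v (x - Pi.single i (1 : ℤ)) + v x * v (x + Pi.single i (1 : ℤ))) := fun x _ => by
    rw [Finset.mul_sum]
    exact Finset.sum_congr rfl fun i _ => mul_add _ _ _
  rw [Finset.sum_congr rfl c1, Finset.sum_comm]
  refine Finset.sum_congr rfl fun i _ => ?_
  have c2 : ∑ x ∈ F, v x * v (x + Pi.single i (1 : ℤ)) = ∑' x : Zd d, v x * v (x + Pi.single i (1 : ℤ)) :=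
    (tsum_eq_sum fun x hx => by rw [hv x hx, zero_mul]).symm
  rw [Finset.sum_add_distrib, c2, cr_eq hv]
  exact (two_mul _).symm

theorem En_eq (hd : 0 < d) {F : Finset (Zd d)} {v : Zd d → ℝ} (hv : ∀ x, x ∉ F → v x = 0) :
    En v = ENNReal.ofReal (2 * d * QF F v (lap d)) := by
  rw [En_one hv]
  congr 1
  have b2 : ∑ x ∈ F, v x ^ 2 = ∑' x : Zd d, v x ^ 2 :=
    (tsum_eq_sum fun x hx => by rw [hv x hx]; ring).symm
  rw [QF_lap1 hv, b2, QF_lap2 hv, Finset.sum_congr rfl fun i _ => df_eq hv i, Finset.sum_sub_distrib,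
    Finset.sum_const, Finset.card_univ, Fintype.card_fin, nsmul_eq_mul]
  have hd' : (d : ℝ) ≠ 0 := by positivity
  field_simp

end R2M

open R2M in
theorem hR2 (hB8 : StB8) (hCvA : StCvA) (hFTb : StFTb) (hFTadd : StFTadd) (hCv : StCv) (hCvFT : StCvFT)
    (hJf : StJf) (hInv : StInv) (hSec : StSec) (hDh : StDh) (hAE : StAE) : SR2 := by
  obtain ⟨d₁, hd₁, hB⟩ := hB8
  refine ⟨d₁, by omega, ?_⟩
  intro d hd v hFS
  obtain ⟨F, hv⟩ := hFS
  have hd0 : 0 < d := by omega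
  obtain ⟨hp0, -, -, heta, hcr⟩ := hB d hd
  have hne : eta d (pH d) ≠ ⊤ := ne_top_of_le_ne_top ENNReal.ofReal_ne_top heta
  obtain ⟨-, hhS, hhn, hhsym, hgdl, hgS, hgsym⟩ := hCvA d (pH d) hne
  have heta' : (eta d (pH d)).toReal ≤ 1 / 200 := by
    have := ENNReal.toReal_mono ENNReal.ofReal_ne_top heta
    rwa [ENNReal.toReal_ofReal (by norm_num)] at this
  obtain ⟨hJS, hJsym, hJ⟩ := hJf d
  set g : Zd d → ℝ := gS d (pH d) with hg
  have eg : EvenF g := ImpFM.even_of_sym hgsym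
  have eJ : EvenF (Jf d) := ImpFM.even_of_sym hJsym
  have k0 : Fin d → ℝ := fun _ => 0
  have sg : Summable g := (hFTb d g hgS k0).1
  obtain ⟨hG1, -, hG2, -, -⟩ := hCv d (Jf d) g hJS hgS
  have eG := hG2 eJ eg
  have sG : Summable (cv (Jf d) g) := (hFTb d _ hG1 k0).1
  obtain ⟨hH1, -, hH2, -, -⟩ := hCv d g (cv (Jf d) g) hgS hG1
  have eH := hH2 eg eG
  have q1 := Q1 hv g
  have q2 := Q2 hv sg sG eG eH
  refine ⟨?_, ?_⟩
  · have : (fun x => |cv g v x|) = fun x => |∑ z ∈ F, v z * g (x - z)| := by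
      funext x
      rw [cv_fs hv]
    rw [this]
    exact (summable_sum fun z _ => (summable_shift sg z).mul_left (v z)).abs
  -- the kernel
  have haddp := fun k => hFTadd d g (cv g (cv (Jf d) g)) hgS hH1 k
  have hcH : SumQ (fun x => (-pH d) * cv g (cv (Jf d) g) x) :=
    ((hFTadd d (cv g (cv (Jf d) g)) (cv g (cv (Jf d) g)) hH1 hH1 k0).2.2.2.2 (-pH d)).1
  set a1 : Zd d → ℝ := fun x => g x + (-pH d) * cv g (cv (Jf d) g) x with ha1
  have sQa : SumQ a1 := (hFTadd d g _ hgS hcH k0).1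
  have sa : Summable a1 := (hFTb d _ sQa k0).1
  have ea : EvenF a1 := fun x => by
    simp only [ha1]
    rw [eg x, eH x]
  have hQa : QF F v a1 = ∑' x : Zd d, v x * cv g v x - pH d * ∑' x : Zd d, ∑ y ∈ nb x, cv g v x * cv g v y := by
    rw [q1, q2]
    unfold QF
    rw [Finset.mul_sum, ← Finset.sum_sub_distrib]
    refine Finset.sum_congr rfl fun x _ => ?_
    rw [Finset.mul_sum, ← Finset.sum_sub_distrib]
    refine Finset.sum_congr rfl fun z _ => ?_
    simp only [ha1]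
    ring
  have hFa : ∀ k, FT a1 k = FT g k * (1 - 2 * d * pH d * Dh k * FT g k) := by
    intro k
    have b1 := (hFTadd d g _ hgS hcH k).2.1
    have b2 := ((hFTadd d (cv g (cv (Jf d) g)) (cv g (cv (Jf d) g)) hH1 hH1 k).2.2.2.2 (-pH d)).2.1
    have b3 := (hCvFT d g (cv (Jf d) g) hgS hG1 eg eG k).1
    have b4 := (hCvFT d (Jf d) g hJS hgS eJ eg k).1
    have b5 := (hJ k).1
    rw [ha1, b1, b2, b3, b4, b5]
    ring
  have hFg : ∀ k, FT g k = 1 + FT (hS d (pH d)) k := by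
    intro k
    have b1 := (hFTadd d (hS d (pH d)) ImpFM.un hhS (ImpFM.sumQ_un d) k).2.1
    rw [ImpFM.FT_un] at b1
    rw [hgdl, add_comm (1 : ℝ), ← b1]
    rfl
  have key : ∀ᵐ k ∂(muT d), (1 / 4) * (1 - Dh k) ≤ FT a1 k := by
    filter_upwards [hAE d] with k hk
    obtain ⟨c1, -, -, c4⟩ := hSec d (hS d (pH d)) hd0 hhS hhsym k hk
    have c5 := (hSec d (hS d (pH d)) hd0 hhS hhsym 0 (fun i => by simp [Real.pi_pos.le])).2.2.2
    have hD := (hDh d k hd0).1
    have hD1 : 0 ≤ 1 - Dh k := by linarith [(abs_le.1 hD).2]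
    have hn0 : nQ (hS d (pH d)) ≤ 1 / 200 := hhn.trans heta'
    have f0 : |FT (hS d (pH d)) 0| ≤ 1 / 200 := c5.trans hn0
    have f1 : |FT (hS d (pH d)) k| ≤ 1 / 200 := c4.trans hn0
    have f2 : |FT (hS d (pH d)) 0 - FT (hS d (pH d)) k| ≤ (3 / 200) * (1 - Dh k) := by
      refine c1.trans ?_
      nlinarith
    rw [hFa k]
    rw [hFg 0] at hcr
    rw [hFg k]
    set F0 := FT (hS d (pH d)) 0
    set Fk := FT (hS d (pH d)) k
    set D := Dh k
    set q := 2 * (d : ℝ) * pH d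
    have hq : q * (1 + F0) = 1 := hcr
    have hF0 := abs_le.1 f0
    have hFk := abs_le.1 f1
    have hDD := abs_le.1 hD
    have h2 := abs_le.1 f2
    have hq0 : 0 < q := by positivity
    have hq1 : q ≤ 200 / 199 := by
      by_contra hcon
      push Not at hcon
      nlinarith
    -- 1 - q D (1+Fk) = (1-D) + q D (F0-Fk)
    have e1 : 1 - 2 * (d : ℝ) * pH d * D * (1 + Fk) = (1 - D) + q * D * (F0 - Fk) := by
      have : 2 * (d : ℝ) * pH d = q := rfl
      rw [this]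
      linear_combination (1 - D) * hq - hq
    rw [e1]
    have e2 : |q * D * (F0 - Fk)| ≤ (200 / 199) * ((3 / 200) * (1 - D)) := by
      rw [abs_mul, abs_mul, abs_of_pos hq0]
      have : q * |D| ≤ 200 / 199 := by nlinarith [abs_nonneg D]
      exact mul_le_mul this f2 (abs_nonneg _) (by norm_num)
    have e3 := (abs_le.1 e2).1
    nlinarith
  -- comparison
  obtain ⟨i1, j1⟩ := QF_inv hInv sa ea F v
  have sQl : SumQ (lap d) := by
    have b1 := ((hFTadd d (Jf d) (Jf d) hJS hJS k0).2.2.2.2 (-(1 / (2 * (d : ℝ))))).1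
    exact (hFTadd d ImpFM.un _ (ImpFM.sumQ_un d) b1 k0).1
  have el : EvenF (lap d) := fun x => by
    unfold lap
    rw [ImpFM.even_un d x, eJ x]
  obtain ⟨i2, j2⟩ := QF_inv hInv (hFTb d _ sQl k0).1 el F v
  have hFl : ∀ k, FT (lap d) k = 1 - Dh k := by
    intro k
    have b1 := (hFTadd d (Jf d) (Jf d) hJS hJS k).2.2.2.2 (-(1 / (2 * (d : ℝ))))
    have b2 := (hFTadd d ImpFM.un _ (ImpFM.sumQ_un d) b1.1 k).2.1
    have b3 : FT (lap d) k = _ := b2
    rw [b3, b1.2.1, (hJ k).1, ImpFM.FT_un]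
    have hd' : (d : ℝ) ≠ 0 := by positivity
    field_simp
    ring
  have hcmp : (1 / 4) * QF F v (lap d) ≤ QF F v a1 := by
    rw [j1, j2, ← integral_const_mul]
    refine integral_mono_ae (i2.const_mul _) i1 ?_
    filter_upwards [key] with k hk
    rw [hFl k, ← mul_assoc]
    exact mul_le_mul_of_nonneg_right hk (PP_nonneg F v k)
  rw [En_eq hd0 hv, ← hQa]
  refine ENNReal.ofReal_le_ofReal ?_
  have hd' : (0 : ℝ) < d := by positivity
  nlinarith

end Pool.RG
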